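import Mathlib
import Pool.Agent.H409Z.Pos

set_option autoImplicit false

namespace Pool.Agent.Results.MP_576b63_co.Q1Yes

/-- There is a permutation of the positive integers in which no four terms, taken in the order of
their indices, form an arithmetic progression with nonzero (positive or negative) difference. -/
theorem result : ∃ a : ℕ+ → ℕ+, Function.Bijective a ∧
    ∀ i j k l : ℕ+, i < j → j < k → k < l →
      ¬ ∃ d : ℤ, d ≠ 0 ∧ ((a j : ℕ) : ℤ) = ((a i : ℕ) : ℤ) + d ∧
        ((a k : ℕ) : ℤ) = ((a j : ℕ) : ℤ) + d ∧ ((a l : ℕ) : ℤ) = ((a k : ℕ) : ℤ) + d :=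
  Pool.Agent.H409Z.main_pos

end Pool.Agent.Results.MP_576b63_co.Q1Yes
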